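import Mathlib
import Pool.Agent.U424.DQ.StmN

/-!
# Project DQN (helper424), part LOCWM: good positions near a local point of a smooth family
(helper356, after the file of helper262 for conics)
-/

set_option autoImplicit false

namespace Pool.Agent.U356.DQ

open Filter Topology
open Pool.Agent.N546.PN (Typ Mon val dval ic bx sz Pt LocN GlobN Smo bval sz1 bx1 S_UN3)
open Pool.Agent.U424.DQ

theorem cont_val {K : Type} [NontriviallyNormedField K] {n : ℕ} {ι : Type} (e : ι → ℕ) (k : ι) :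
    Continuous fun q : ((k : ι) → Mon n (e k + 1) → K) × (Fin (n + 1) → K) =>
      val (q.1 k) q.2 := by
  unfold val
  refine continuous_finsetSum _ fun m _ => ?_
  refine Continuous.mul ?_ ?_
  · exact (continuous_apply m).comp ((continuous_apply k).comp continuous_fst)
  · refine continuous_finsetProd _ fun i _ => ?_
    exact ((continuous_apply i).comp continuous_snd).pow _

/-- **(LOCW)** local points of smooth families have good positions nearby -/
theorem locwm_ (K : Type) [NontriviallyNormedField K] (h1 : Pool.Agent.N546.PN.S_SQW K)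
    (h2 : Pool.Agent.N546.PN.S_OPN K) (h3 : S_FILM K) : S_LOCWM K := by
  classical
  intro n r d hd3 e c x z hsm hx hon ε hε
  obtain ⟨a, ha⟩ : ∃ a : (Σ i : Fin r, Fin (d i)) → K, a = fun k => val (c k) x := ⟨_, rfl⟩
  obtain ⟨R, hR⟩ : ∃ R : ℝ, R = ‖z‖ + 1 := ⟨_, rfl⟩
  have hR0 : 0 < R := by rw [hR]; positivity
  -- the precision of the square roots
  obtain ⟨ε₂, hε₂, hinv⟩ : ∃ ε₂ : ℝ, 0 < ε₂ ∧ ∀ s t : K, ‖s - 1‖ < ε₂ → ‖t - 1‖ < ε₂ →
      ‖(s * t)⁻¹ - 1‖ < ε / (2 * R) := by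
    have hc : ContinuousAt (fun q : K × K => (q.1 * q.2)⁻¹) (1, 1) :=
      (continuousAt_fst.mul continuousAt_snd).inv₀ (by simp)
    obtain ⟨δ, hδ, hb⟩ := Metric.continuousAt_iff.1 hc (ε / (2 * R)) (by positivity)
    refine ⟨δ, hδ, fun s t hs ht => ?_⟩
    have h := hb (x := (s, t)) (by
      rw [Prod.dist_eq, max_lt_iff, dist_eq_norm, dist_eq_norm]
      exact ⟨hs, ht⟩)
    rw [dist_eq_norm] at h
    simpa using h
  -- the neighbourhood of `x`
  have hδk : ∀ k, ∃ δ : ℝ, 0 < δ ∧ (a k ≠ 0 → ∀ a' : K, ‖a' - a k‖ < δ →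
      ∃ s : K, ‖s - 1‖ < ε₂ ∧ s ≠ 0 ∧ a' = a k * s ^ 2) := by
    intro k
    by_cases hk : a k = 0
    · exact ⟨1, one_pos, fun h => absurd hk h⟩
    · obtain ⟨δ, hδ, h⟩ := h1 (a k) hk ε₂ hε₂
      exact ⟨δ, hδ, fun _ => h⟩
  choose δk hδk0 hδk1 using hδk
  have hV : {x' : Fin (n + 1) → K | (∀ i, ‖x' i - x i‖ < ε) ∧
      ∀ k, ‖val (c k) x' - a k‖ < δk k} ∈ 𝓝 x := by
    have e1 : ∀ᶠ x' in 𝓝 x, ∀ i, ‖x' i - x i‖ < ε := by
      rw [Filter.eventually_all]
      intro i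
      have h := Metric.tendsto_nhds.1 ((continuous_apply i).tendsto x) ε hε
      filter_upwards [h] with q hq
      rwa [dist_eq_norm] at hq
    have e2 : ∀ᶠ x' in 𝓝 x, ∀ k, ‖val (c k) x' - a k‖ < δk k := by
      rw [Filter.eventually_all]
      intro k
      have hc : Continuous fun x' : Fin (n + 1) → K => val (c k) x' :=
        (cont_val e k).comp (continuous_const.prodMk continuous_id)
      have h := Metric.tendsto_nhds.1 (hc.tendsto x) (δk k) (hδk0 k)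
      filter_upwards [h] with q hq
      rw [dist_eq_norm] at hq
      rw [ha]
      exact hq
    filter_upwards [e1, e2] with q h h'
    exact ⟨h, h'⟩
  obtain ⟨δ₀, hδ₀, hopn⟩ := h2 n (Σ i : Fin r, Fin (d i)) e c x (Finset.univ.filter fun k => a k = 0)
    (fun l hl hsup => hsm x l hx hl fun k hk => by
      have := (Finset.mem_filter.1 (hsup k hk)).2
      rw [ha] at this
      exact this) _ hV
  obtain ⟨ε₁, hε₁⟩ : ∃ ε₁ : ℝ, ε₁ = min (min δ₀ (ε / 4)) 1 := ⟨_, rfl⟩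
  have hε₁0 : 0 < ε₁ := by
    rw [hε₁]
    exact lt_min (lt_min hδ₀ (by positivity)) one_pos
  have hε₁a : ε₁ ≤ δ₀ := by rw [hε₁]; exact (min_le_left _ _).trans (min_le_left _ _)
  have hε₁b : ε₁ ≤ ε / 4 := by rw [hε₁]; exact (min_le_left _ _).trans (min_le_right _ _)
  have hε₁c : ε₁ ≤ 1 := by rw [hε₁]; exact min_le_right _ _
  have hfil := fun i => h3 (d i) (hd3 i) (fun l => a ⟨i, l⟩) (z i) (hon i).1 (by
    have := (hon i).2
    rw [ha]
    exact this) ε₁ hε₁0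
  choose w z' hw0 hw1 hw2 hz1 hz2 hz3 using hfil
  obtain ⟨x', hx'V, hx'w⟩ := hopn (fun k => w k.1 k.2) (fun k hk => by
    have hk0 : a k = 0 := (Finset.mem_filter.1 hk).2
    have h4 : val (c k) x = 0 := by
      rw [ha] at hk0
      exact hk0
    rw [h4, sub_zero]
    exact (hw2 k.1 k.2 hk0).trans_le hε₁a)
  have hs : ∀ k : Σ i : Fin r, Fin (d i), ∃ s : K, ‖s - 1‖ < ε₂ ∧ s ≠ 0 ∧
      val (c k) x' = w k.1 k.2 * s ^ 2 := by
    intro k
    by_cases hk : a k = 0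
    · refine ⟨1, by simpa using hε₂, one_ne_zero, ?_⟩
      rw [hx'w k (Finset.mem_filter.2 ⟨Finset.mem_univ _, hk⟩)]
      ring
    · obtain ⟨s, s1, s2, s3⟩ := hδk1 k hk (val (c k) x') (hx'V.2 k)
      refine ⟨s, s1, s2, ?_⟩
      rw [hw1 k.1 k.2 hk]
      exact s3
  choose s hs1 hs2 hs3 using hs
  have hv0 : ∀ k, val (c k) x' ≠ 0 := by
    intro k
    rw [hs3 k]
    exact mul_ne_zero (hw0 k.1 k.2) (pow_ne_zero 2 (hs2 k))
  choose δ' hδ' ht using fun k => h1 (val (c k) x') (hv0 k) ε₂ hε₂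
  have hev : ∀ᶠ q in 𝓝 (c, x'), ∀ k, ‖val (q.1 k) q.2 - val (c k) x'‖ < δ' k := by
    rw [Filter.eventually_all]
    intro k
    have hc : Tendsto (fun q : ((k : Σ i : Fin r, Fin (d i)) → Mon n (e k + 1) → K) × (Fin (n + 1) → K) =>
        val (q.1 k) q.2) (𝓝 (c, x')) (𝓝 (val (c k) x')) := (cont_val e k).tendsto (c, x')
    have h4 := (Metric.tendsto_nhds.1 hc) (δ' k) (hδ' k)
    filter_upwards [h4] with q hq
    rwa [dist_eq_norm] at hq
  obtain ⟨δ, hδ, hb⟩ := Metric.eventually_nhds_iff.1 hev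
  refine ⟨x', hx'V.1, δ, hδ, fun c'' x'' hc'' hx'' => ?_⟩
  have hd : dist (c'', x'') (c, x') < δ := by
    rw [Prod.dist_eq, max_lt_iff]
    constructor
    · rw [dist_pi_lt_iff hδ]
      intro k
      rw [dist_pi_lt_iff hδ]
      intro m
      rw [dist_eq_norm]
      exact hc'' k m
    · rw [dist_pi_lt_iff hδ]
      intro i
      rw [dist_eq_norm]
      exact hx'' i
  have h4 := hb hd
  choose t ht1 ht2 ht3 using fun k => ht k (val (c'' k) x'') (h4 k)
  refine ⟨fun k => ?_, fun i l => z' i l * (s ⟨i, l⟩ * t ⟨i, l⟩)⁻¹, fun i l => ?_, fun i => ⟨?_, ?_⟩⟩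
  · rw [ht3 k]
    exact mul_ne_zero (hv0 k) (pow_ne_zero 2 (ht2 k))
  · have e1 : z' i l * (s ⟨i, l⟩ * t ⟨i, l⟩)⁻¹ - z i l =
        z' i l * ((s ⟨i, l⟩ * t ⟨i, l⟩)⁻¹ - 1) + (z' i l - z i l) := by ring
    have e2 : ‖z' i l‖ ≤ R := by
      have k1 : ‖z i l‖ ≤ ‖z‖ := (norm_le_pi_norm (z i) l).trans (norm_le_pi_norm z i)
      have k2 : ‖z' i l‖ ≤ ‖z' i l - z i l‖ + ‖z i l‖ := by
        have := norm_add_le (z' i l - z i l) (z i l)
        rwa [sub_add_cancel] at this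
      have k3 := hz1 i l
      rw [hR]
      linarith
    have e3 := hinv (s ⟨i, l⟩) (t ⟨i, l⟩) (hs1 _) (ht1 _)
    have e4 := hz1 i l
    rw [e1]
    refine (norm_add_le _ _).trans_lt ?_
    rw [norm_mul]
    have e5 : ‖z' i l‖ * ‖(s ⟨i, l⟩ * t ⟨i, l⟩)⁻¹ - 1‖ ≤ R * (ε / (2 * R)) :=
      mul_le_mul e2 e3.le (norm_nonneg _) hR0.le
    have e6 : R * (ε / (2 * R)) = ε / 2 := by field_simp
    linarith
  · intro h0
    apply hz2 i
    funext l
    have h5 := congrFun h0 l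
    simp only [Pi.zero_apply] at h5 ⊢
    rcases mul_eq_zero.1 h5 with h6 | h6
    · exact h6
    · exact absurd h6 (inv_ne_zero (mul_ne_zero (hs2 _) (ht2 _)))
  · have key : ∀ l, val (c'' ⟨i, l⟩) x'' * (z' i l * (s ⟨i, l⟩ * t ⟨i, l⟩)⁻¹) ^ 2 =
        w i l * z' i l ^ 2 := by
      intro l
      have k1 := hs2 ⟨i, l⟩
      have k2 := ht2 ⟨i, l⟩
      rw [ht3 ⟨i, l⟩, hs3 ⟨i, l⟩]
      field_simp
    simp only [key]
    exact hz3 i

end Pool.Agent.U356.DQ
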